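import Mathlib

/-!
# MP_3e19fa_lc: an improving response cycle with exactly two empty nodes

A graph with eight nodes, six agents of three types (two agents of each type) and hence two empty
nodes, on which the variety-seeking jump game has an improving response cycle of length 24.
Every jump of the cycle raises the utility of the jumping agent from 1 to 2.
-/

namespace Pool.Agent.Results.MP_3e19fa_lc.TwoEmptyCycle

variable {V A T : Type*}

/-- The utility `u_i(σ)`: the number of distinct types, other than the type of `i`, that occur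
among the agents occupying neighbours of the node `σ i`. -/
noncomputable def utility (G : SimpleGraph V) (ty : A → T) (σ : A ↪ V) (i : A) : ℕ :=
  {t : T | t ≠ ty i ∧ ∃ j, ty j = t ∧ G.Adj (σ i) (σ j)}.ncard

/-- The assignment `τ` arises from the assignment `σ` by an improving jump of one agent `i`: the
agent `i` moves to another node, which is empty in `σ` because `τ` is injective and agrees with
`σ` on the other agents, and its utility becomes strictly larger. -/
def ImprovingJump (G : SimpleGraph V) (ty : A → T) (σ τ : A ↪ V) : Prop :=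
  ∃ i, τ i ≠ σ i ∧ (∀ j, j ≠ i → τ j = σ j) ∧ utility G ty σ i < utility G ty τ i

/-- `σ_0, σ_1, …, σ_m = σ_0` with `m ≥ 1` is an improving response cycle. -/
def IsImprovingResponseCycle (G : SimpleGraph V) (ty : A → T) (m : ℕ) (σ : ℕ → (A ↪ V)) : Prop :=
  1 ≤ m ∧ σ m = σ 0 ∧ ∀ j < m, ImprovingJump G ty (σ j) (σ (j + 1))

/-- Boolean adjacency table of the graph. -/
def adjB : Fin 8 → Fin 8 → Bool := fun a b =>
  let p := (min a.val b.val, max a.val b.val)
  p ∈ [(0, 1), (0, 2), (0, 5), (1, 3), (1, 6), (2, 3), (2, 4), (2, 5), (3, 4), (3, 6), (4, 7),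
    (5, 6), (5, 7), (6, 7)]

/-- The graph with 8 nodes and 14 edges. -/
def gr : SimpleGraph (Fin 8) where
  Adj a b := adjB a b = true
  symm := ⟨by
    intro a b h
    revert a b
    decide⟩
  loopless := ⟨by
    intro a
    revert a
    decide⟩

instance : DecidableRel gr.Adj := fun a b => inferInstanceAs (Decidable (adjB a b = true))

/-- The types of the six agents. -/
def typ : Fin 6 → Fin 3 := ![0, 0, 1, 1, 2, 2]

/-- The positions of the six agents in the 24 assignments of the cycle. -/
def pos : Fin 24 → Fin 6 → Fin 8 :=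
  ![![5, 7, 4, 6, 0, 2], ![5, 1, 4, 6, 0, 2], ![5, 1, 4, 3, 0, 2], ![5, 1, 4, 3, 7, 2],
    ![6, 1, 4, 3, 7, 2], ![6, 1, 0, 3, 7, 2], ![6, 1, 0, 3, 7, 5], ![6, 4, 0, 3, 7, 5],
    ![6, 4, 0, 2, 7, 5], ![6, 4, 0, 2, 1, 5], ![3, 4, 0, 2, 1, 5], ![3, 4, 7, 2, 1, 5],
    ![3, 4, 7, 2, 1, 6], ![3, 0, 7, 2, 1, 6], ![3, 0, 7, 5, 1, 6], ![3, 0, 7, 5, 4, 6],
    ![2, 0, 7, 5, 4, 6], ![2, 0, 1, 5, 4, 6], ![2, 0, 1, 5, 4, 3], ![2, 7, 1, 5, 4, 3],
    ![2, 7, 1, 6, 4, 3], ![2, 7, 1, 6, 0, 3], ![5, 7, 1, 6, 0, 3], ![5, 7, 4, 6, 0, 3]]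

theorem pos_inj : ∀ r : Fin 24, Function.Injective (pos r) := by
  decide

/-- The computable utility. -/
def utilC (p : Fin 6 → Fin 8) (i : Fin 6) : ℕ :=
  (Finset.univ.filter (fun t : Fin 3 => t ≠ typ i ∧ ∃ j, typ j = t ∧ gr.Adj (p i) (p j))).card

theorem step : ∀ r : Fin 24, ∃ i, pos (r + 1) i ≠ pos r i ∧
    (∀ j, j ≠ i → pos (r + 1) j = pos r j) ∧ utilC (pos r) i < utilC (pos (r + 1)) i := by
  decide

theorem utility_eq (σ : Fin 6 ↪ Fin 8) (i : Fin 6) : utility gr typ σ i = utilC σ i := by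
  unfold utility utilC
  rw [← Set.ncard_coe_finset]
  congr 1
  ext t
  simp

/-- The assignments of the cycle. -/
def sig (n : ℕ) : Fin 6 ↪ Fin 8 := ⟨pos (Fin.ofNat 24 n), pos_inj _⟩

theorem gr_connected : gr.Connected := by
  have h1 : gr.Reachable 0 1 := (show gr.Adj 0 1 by decide).reachable
  have h2 : gr.Reachable 0 2 := (show gr.Adj 0 2 by decide).reachable
  have h5 : gr.Reachable 0 5 := (show gr.Adj 0 5 by decide).reachable
  have h3 : gr.Reachable 0 3 := h1.trans (show gr.Adj 1 3 by decide).reachable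
  have h6 : gr.Reachable 0 6 := h1.trans (show gr.Adj 1 6 by decide).reachable
  have h4 : gr.Reachable 0 4 := h2.trans (show gr.Adj 2 4 by decide).reachable
  have h7 : gr.Reachable 0 7 := h5.trans (show gr.Adj 5 7 by decide).reachable
  have h : ∀ v, gr.Reachable 0 v := by
    intro v
    fin_cases v
    · exact SimpleGraph.Reachable.refl _
    · exact h1
    · exact h2
    · exact h3
    · exact h4
    · exact h5
    · exact h6
    · exact h7
  exact ⟨fun a b => (h a).symm.trans (h b)⟩

/-- **Disproof of Q1.**  There are a finite connected graph `G`, agents of at least two types with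
exactly two empty nodes, and an improving response cycle. -/
theorem result : ∃ (V A T : Type) (_ : Fintype V) (_ : Fintype A) (_ : Fintype T)
    (G : SimpleGraph V) (ty : A → T),
    G.Connected ∧ 2 ≤ Fintype.card T ∧ Function.Surjective ty ∧ Fintype.card V = Fintype.card A + 2 ∧
    ∃ (m : ℕ) (σ : ℕ → (A ↪ V)), IsImprovingResponseCycle G ty m σ := by
  refine ⟨Fin 8, Fin 6, Fin 3, inferInstance, inferInstance, inferInstance, gr, typ,
    gr_connected, by decide, by decide, by decide, 24, sig, by norm_num, ?_, ?_⟩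
  · unfold sig
    congr 1
  · intro j _
    obtain ⟨i, h1, h2, h3⟩ := step (Fin.ofNat 24 j)
    have hs : Fin.ofNat 24 (j + 1) = Fin.ofNat 24 j + 1 := by
      ext
      simp [Fin.val_add, Nat.add_mod]
    refine ⟨i, ?_, ?_, ?_⟩
    · show pos (Fin.ofNat 24 (j + 1)) i ≠ pos (Fin.ofNat 24 j) i
      rw [hs]; exact h1
    · intro k hk
      show pos (Fin.ofNat 24 (j + 1)) k = pos (Fin.ofNat 24 j) k
      rw [hs]; exact h2 k hk
    · rw [utility_eq, utility_eq]
      show utilC (pos (Fin.ofNat 24 j)) i < utilC (pos (Fin.ofNat 24 (j + 1))) i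
      rw [hs]; exact h3

end Pool.Agent.Results.MP_3e19fa_lc.TwoEmptyCycle
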